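import Pool.Agent.Helper68.BA.FT

set_option autoImplicit false

/-! Time weighted jets along the heat flow (MP_3dd6d4, group JET): the Fourier side. -/

noncomputable section

namespace Pool.Agent.Helper54.JET

open MeasureTheory Set Filter Topology Complex FourierTransform SchwartzMap
open Pool.Agent.Helper68.BA
open scoped ContDiff SchwartzMap LineDeriv ENNReal


/-- the character `e^{2 pi i <ξ, z>}` -/
def ee (ξ z : ℂ) : ℂ := cexp (2 * (Real.pi : ℂ) * I * ((ξ.re * z.re + ξ.im * z.im : ℝ) : ℂ))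

lemma ee_eq (ξ z : ℂ) : ee ξ z = cexp (((2 * Real.pi * (ξ.re * z.re + ξ.im * z.im) : ℝ) : ℂ) * I) := by
  unfold ee
  congr 1
  push_cast
  ring

lemma norm_ee (ξ z : ℂ) : ‖ee ξ z‖ = 1 := by
  rw [ee_eq, Complex.norm_exp_ofReal_mul_I]

lemma ee_add (ξ η z : ℂ) : ee (ξ + η) z = ee ξ z * ee η z := by
  unfold ee
  rw [← Complex.exp_add]
  congr 1
  push_cast [Complex.add_re, Complex.add_im]
  ring

lemma cj_ee (ξ z : ℂ) : starRingEnd ℂ (ee ξ z) = ee (-ξ) z := by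
  rw [ee_eq, ee_eq, ← Complex.exp_conj]
  congr 1
  rw [map_mul, Complex.conj_ofReal, Complex.conj_I]
  push_cast [Complex.neg_re, Complex.neg_im]
  ring

lemma continuous_ee : Continuous fun p : ℂ × ℂ => ee p.1 p.2 := by
  unfold ee
  fun_prop

lemma inversion (ψ : 𝓢(ℂ, ℂ)) (z : ℂ) : ψ z = ∫ ξ, ee ξ z * 𝓕 (ψ : ℂ → ℂ) ξ := by
  have h : ψ = 𝓕⁻ (𝓕 ψ) := (FourierTransform.fourierInv_fourier_eq ψ).symm
  have h2 : (ψ : ℂ → ℂ) z = 𝓕⁻ (𝓕 (ψ : ℂ → ℂ)) z := by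
    conv_lhs => rw [h]
    rw [fourierInv_coe, fourier_coe]
  rw [h2, Real.fourierInv_eq']
  congr 1
  funext ξ
  rw [smul_eq_mul]
  congr 1
  unfold ee
  congr 1
  have h1 : inner ℝ ξ z = ξ.re * z.re + ξ.im * z.im := by
    simp only [Complex.inner, Complex.mul_re, Complex.conj_re, Complex.conj_im]
    ring
  rw [h1]
  push_cast
  ring

lemma fourier_formula (ψ : 𝓢(ℂ, ℂ)) (ξ : ℂ) : 𝓕 (ψ : ℂ → ℂ) ξ = ∫ z, starRingEnd ℂ (ee ξ z) * ψ z := by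
  rw [Real.fourier_eq']
  congr 1
  funext z
  rw [smul_eq_mul, cj_ee]
  congr 1
  unfold ee
  congr 1
  have h1 : inner ℝ z ξ = ξ.re * z.re + ξ.im * z.im := by
    simp only [Complex.inner, Complex.mul_re, Complex.conj_re, Complex.conj_im]
    ring
  rw [h1]
  push_cast [Complex.neg_re, Complex.neg_im]
  ring

lemma cont_fourier (ψ : 𝓢(ℂ, ℂ)) : Continuous (𝓕 (ψ : ℂ → ℂ)) := by
  rw [← fourier_coe]
  exact (𝓕 ψ).continuous

lemma fourier_bdd (ψ : 𝓢(ℂ, ℂ)) : ∃ C : ℝ, ∀ ξ, ‖𝓕 (ψ : ℂ → ℂ) ξ‖ ≤ C := by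
  refine ⟨∫ z, ‖ψ z‖, fun ξ => ?_⟩
  rw [fourier_formula]
  refine (norm_integral_le_integral_norm _).trans (le_of_eq ?_)
  congr 1
  funext z
  rw [norm_mul, RCLike.norm_conj, norm_ee, one_mul]

/-- the quartic integral on the Fourier side -/
theorem quartic (ψ₁ ψ₂ ψ₃ ψ₄ : 𝓢(ℂ, ℂ)) :
    ∫ z, ψ₁ z * ψ₂ z * starRingEnd ℂ (ψ₃ z) * starRingEnd ℂ (ψ₄ z) =
      ∫ ξ : ℂ × ℂ × ℂ, 𝓕 (ψ₁ : ℂ → ℂ) ξ.1 * 𝓕 (ψ₂ : ℂ → ℂ) ξ.2.1 * starRingEnd ℂ (𝓕 (ψ₃ : ℂ → ℂ) ξ.2.2) *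
        starRingEnd ℂ (𝓕 (ψ₄ : ℂ → ℂ) (ξ.1 + ξ.2.1 - ξ.2.2)) := by
  set a₁ := 𝓕 (ψ₁ : ℂ → ℂ) with ha₁
  set a₂ := 𝓕 (ψ₂ : ℂ → ℂ) with ha₂
  set a₃ := 𝓕 (ψ₃ : ℂ → ℂ) with ha₃
  have c₁ : Continuous a₁ := cont_fourier ψ₁
  have c₂ : Continuous a₂ := cont_fourier ψ₂
  have c₃ : Continuous a₃ := cont_fourier ψ₃
  have i₁ : Integrable a₁ := fourier_integrable ψ₁
  have i₂ : Integrable a₂ := fourier_integrable ψ₂
  have i₃ : Integrable a₃ := fourier_integrable ψ₃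
  set F : ℂ → ℂ × ℂ × ℂ → ℂ := fun z ξ =>
    starRingEnd ℂ (ψ₄ z) * ((ee ξ.1 z * a₁ ξ.1) * ((ee ξ.2.1 z * a₂ ξ.2.1) * starRingEnd ℂ (ee ξ.2.2 z * a₃ ξ.2.2)))
    with hF
  have e1 : ∀ z, ψ₁ z * ψ₂ z * starRingEnd ℂ (ψ₃ z) * starRingEnd ℂ (ψ₄ z) = ∫ ξ, F z ξ := by
    intro z
    have h3 : starRingEnd ℂ (ψ₃ z) = ∫ ξ, starRingEnd ℂ (ee ξ z * a₃ ξ) := by
      rw [inversion ψ₃ z, ← integral_conj]
    rw [hF]
    simp only []
    rw [integral_const_mul]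
    have h4 : ∫ ξ : ℂ × ℂ × ℂ, (ee ξ.1 z * a₁ ξ.1) *
        ((ee ξ.2.1 z * a₂ ξ.2.1) * starRingEnd ℂ (ee ξ.2.2 z * a₃ ξ.2.2)) =
        (∫ ξ, ee ξ z * a₁ ξ) * ((∫ ξ, ee ξ z * a₂ ξ) * ∫ ξ, starRingEnd ℂ (ee ξ z * a₃ ξ)) := by
      have h5 := integral_prod_mul (μ := (volume : Measure ℂ)) (ν := (volume : Measure (ℂ × ℂ)))
        (fun ξ => ee ξ z * a₁ ξ) (fun η : ℂ × ℂ => (ee η.1 z * a₂ η.1) * starRingEnd ℂ (ee η.2 z * a₃ η.2))
      have h6 := integral_prod_mul (μ := (volume : Measure ℂ)) (ν := (volume : Measure ℂ))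
        (fun ξ => ee ξ z * a₂ ξ) (fun ξ => starRingEnd ℂ (ee ξ z * a₃ ξ))
      rw [← h6]
      exact h5
    rw [h4, ← h3, ← inversion ψ₁ z, ← inversion ψ₂ z]
    ring
  have e2 : Integrable (Function.uncurry F) ((volume : Measure ℂ).prod (volume : Measure (ℂ × ℂ × ℂ))) := by
    have h1 : Integrable (fun p : ℂ × ℂ × ℂ × ℂ => starRingEnd ℂ (ψ₄ p.1) * (a₁ p.2.1 * (a₂ p.2.2.1 *
        a₃ p.2.2.2))) ((volume : Measure ℂ).prod (volume : Measure (ℂ × ℂ × ℂ))) := by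
      have k1 : Integrable fun z => starRingEnd ℂ (ψ₄ z) := by
        have := ψ₄.integrable (μ := (volume : Measure ℂ))
        exact (LinearIsometryEquiv.integrable_comp_iff (Complex.conjLIE)).2 this
      exact k1.mul_prod (i₁.mul_prod (i₂.mul_prod i₃))
    refine h1.norm.mono' ?_ (ae_of_all _ fun p => ?_)
    · apply Continuous.aestronglyMeasurable
      have k2 : Continuous fun z => starRingEnd ℂ (ψ₄ z) := Complex.continuous_conj.comp ψ₄.continuous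
      have k3 : Continuous fun p : ℂ × ℂ × ℂ × ℂ => ee p.2.1 p.1 :=
        continuous_ee.comp (by fun_prop : Continuous fun p : ℂ × ℂ × ℂ × ℂ => (p.2.1, p.1))
      have k4 : Continuous fun p : ℂ × ℂ × ℂ × ℂ => ee p.2.2.1 p.1 :=
        continuous_ee.comp (by fun_prop : Continuous fun p : ℂ × ℂ × ℂ × ℂ => (p.2.2.1, p.1))
      have k5 : Continuous fun p : ℂ × ℂ × ℂ × ℂ => ee p.2.2.2 p.1 :=
        continuous_ee.comp (by fun_prop : Continuous fun p : ℂ × ℂ × ℂ × ℂ => (p.2.2.2, p.1))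
      have k6 : Continuous fun p : ℂ × ℂ × ℂ × ℂ => a₁ p.2.1 := c₁.comp (by fun_prop)
      have k7 : Continuous fun p : ℂ × ℂ × ℂ × ℂ => a₂ p.2.2.1 := c₂.comp (by fun_prop)
      have k8 : Continuous fun p : ℂ × ℂ × ℂ × ℂ => a₃ p.2.2.2 := c₃.comp (by fun_prop)
      have k9 : Continuous fun p : ℂ × ℂ × ℂ × ℂ => starRingEnd ℂ (ψ₄ p.1) := k2.comp continuous_fst
      exact k9.mul ((k3.mul k6).mul ((k4.mul k7).mul (Complex.continuous_conj.comp (k5.mul k8))))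
    · simp only [Function.uncurry, hF, norm_mul, RCLike.norm_conj, norm_ee, one_mul]
      exact le_rfl
  calc ∫ z, ψ₁ z * ψ₂ z * starRingEnd ℂ (ψ₃ z) * starRingEnd ℂ (ψ₄ z) = ∫ z, ∫ ξ, F z ξ := by simp only [e1]
    _ = ∫ ξ, ∫ z, F z ξ := integral_integral_swap e2
    _ = _ := by
      congr 1
      funext ξ
      have h1 : ∀ z, F z ξ = (a₁ ξ.1 * a₂ ξ.2.1 * starRingEnd ℂ (a₃ ξ.2.2)) *
          starRingEnd ℂ (starRingEnd ℂ (ee (ξ.1 + ξ.2.1 - ξ.2.2) z) * ψ₄ z) := by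
        intro z
        rw [hF]
        simp only [map_mul, Complex.conj_conj]
        rw [sub_eq_add_neg, ee_add, ee_add, ← cj_ee]
        ring
      simp only [h1]
      rw [integral_const_mul, integral_conj, ← fourier_formula]

end Pool.Agent.Helper54.JET
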