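import Pool.Agent.Helper54.JET.Heat

set_option autoImplicit false

/-! Evolution of the quartic integrals along the heat flow. -/

noncomputable section

namespace Pool.Agent.Helper54.JET

open MeasureTheory Set Filter Topology Complex FourierTransform SchwartzMap
open Pool.Agent.Helper68.BA
open scoped ContDiff SchwartzMap LineDeriv ENNReal


/-- the integrand of `JJ` -/
def GG (φ : 𝓢(ℂ, ℂ)) (q : Q4) (t : ℝ) (ξ : C3) : ℂ :=
  sg q ξ * Om φ ξ * ((Real.exp (-(t * En ξ)) : ℝ) : ℂ)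

lemma JJ_eq (φ : 𝓢(ℂ, ℂ)) (q : Q4) (t : ℝ) : JJ φ q t = ∫ ξ, GG φ q t ξ := rfl

lemma exp_le_one' {t : ℝ} (ht : 0 ≤ t) (ξ : C3) : Real.exp (-(t * En ξ)) ≤ 1 := by
  apply Real.exp_le_one_iff.2
  have := mul_nonneg ht (En_nonneg ξ)
  linarith

lemma norm_GG_le (φ : 𝓢(ℂ, ℂ)) (q : Q4) {t : ℝ} (ht : 0 ≤ t) (ξ : C3) :
    ‖GG φ q t ξ‖ ≤ ‖sg q ξ * Om φ ξ‖ := by
  unfold GG
  rw [norm_mul, Complex.norm_real, Real.norm_eq_abs, abs_of_pos (Real.exp_pos _)]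
  exact mul_le_of_le_one_right (norm_nonneg _) (exp_le_one' ht ξ)

lemma continuous_exp_En (t : ℝ) : Continuous fun ξ : C3 => ((Real.exp (-(t * En ξ)) : ℝ) : ℂ) :=
  Complex.continuous_ofReal.comp (Real.continuous_exp.comp
    ((continuous_const.mul continuous_En).neg))

lemma aesm_GG (φ : 𝓢(ℂ, ℂ)) (q : Q4) (t : ℝ) : AEStronglyMeasurable (GG φ q t) volume :=
  (integrable_sg φ q).aestronglyMeasurable.mul (continuous_exp_En t).aestronglyMeasurable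

lemma integrable_GG (φ : 𝓢(ℂ, ℂ)) (q : Q4) {t : ℝ} (ht : 0 ≤ t) : Integrable (GG φ q t) :=
  (integrable_sg φ q).norm.mono' (aesm_GG φ q t) (ae_of_all _ fun ξ => norm_GG_le φ q ht ξ)

lemma sum_JJ (φ : 𝓢(ℂ, ℂ)) {t : ℝ} (ht : 0 ≤ t) (L : List Q4) :
    Integrable (fun ξ : C3 => (L.map fun r => sg r ξ).sum * Om φ ξ *
      ((Real.exp (-(t * En ξ)) : ℝ) : ℂ)) ∧
    (L.map fun r => JJ φ r t).sum = ∫ ξ : C3, (L.map fun r => sg r ξ).sum * Om φ ξ *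
      ((Real.exp (-(t * En ξ)) : ℝ) : ℂ) := by
  induction L with
  | nil => simp
  | cons a L ih =>
    have e : (fun ξ : C3 => ((a :: L).map fun r => sg r ξ).sum * Om φ ξ *
        ((Real.exp (-(t * En ξ)) : ℝ) : ℂ)) = fun ξ => GG φ a t ξ +
          (L.map fun r => sg r ξ).sum * Om φ ξ * ((Real.exp (-(t * En ξ)) : ℝ) : ℂ) := by
      funext ξ
      simp only [List.map_cons, List.sum_cons, GG]
      ring
    rw [e]
    refine ⟨(integrable_GG φ a ht).add ih.1, ?_⟩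
    rw [integral_add (integrable_GG φ a ht) ih.1, List.map_cons, List.sum_cons, ih.2, JJ_eq]

lemma sum_dd_JJ (φ : 𝓢(ℂ, ℂ)) {t : ℝ} (ht : 0 ≤ t) (q : Q4) :
    ((dd q).map fun r => JJ φ r t).sum = 0 := by
  rw [(sum_JJ φ ht (dd q)).2]
  simp only [sum_dd, zero_mul, integral_zero]

lemma sum_pp_JJ (φ : 𝓢(ℂ, ℂ)) {t : ℝ} (ht : 0 ≤ t) (q : Q4) :
    Integrable (fun ξ : C3 => ((En ξ : ℝ) : ℂ) * GG φ q t ξ) ∧
    ((pp q).map fun r => JJ φ r t).sum = ∫ ξ : C3, ((En ξ : ℝ) : ℂ) * GG φ q t ξ := by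
  have h := sum_JJ φ ht (pp q)
  have e : (fun ξ : C3 => ((pp q).map fun r => sg r ξ).sum * Om φ ξ *
      ((Real.exp (-(t * En ξ)) : ℝ) : ℂ)) = fun ξ => ((En ξ : ℝ) : ℂ) * GG φ q t ξ := by
    funext ξ
    rw [sum_pp, GG]
    ring
  rw [e] at h
  exact h

lemma hasDerivAt_JJ (φ : 𝓢(ℂ, ℂ)) {t : ℝ} (ht : 0 < t) (q : Q4) :
    HasDerivAt (JJ φ q) (-((pp q).map fun r => JJ φ r t).sum) t := by
  have h0 := sum_pp_JJ φ le_rfl q
  have key := hasDerivAt_integral_of_dominated_loc_of_deriv_le (𝕜 := ℝ) (μ := (volume : Measure C3))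
    (F := fun s ξ => GG φ q s ξ) (F' := fun s ξ => -(((En ξ : ℝ) : ℂ) * GG φ q s ξ))
    (x₀ := t) (s := Ioi 0) (bound := fun ξ => ‖((En ξ : ℝ) : ℂ) * GG φ q 0 ξ‖)
    (Ioi_mem_nhds ht) (Eventually.of_forall fun s => aesm_GG φ q s) (integrable_GG φ q ht.le)
    (by
      have := (sum_pp_JJ φ ht.le q).1.aestronglyMeasurable
      exact this.neg)
    (ae_of_all _ fun ξ s hs => by
      rw [norm_neg, norm_mul, norm_mul]
      refine mul_le_mul_of_nonneg_left ?_ (norm_nonneg _)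
      have := norm_GG_le φ q (le_of_lt hs) ξ
      refine this.trans (le_of_eq ?_)
      simp [GG])
    h0.1.norm
    (ae_of_all _ fun ξ s _ => by
      have h1 : HasDerivAt (fun s : ℝ => ((Real.exp (-(s * En ξ)) : ℝ) : ℂ))
          (((Real.exp (-(s * En ξ)) * (-(En ξ)) : ℝ) : ℂ)) s := by
        apply HasDerivAt.ofReal_comp
        have h2 : HasDerivAt (fun s : ℝ => -(s * En ξ)) (-(En ξ)) s := by
          have := (hasDerivAt_id s).mul_const (-(En ξ))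
          rw [one_mul] at this
          refine this.congr_of_eventuallyEq (Eventually.of_forall fun r => ?_)
          simp only [id]
          ring
        exact h2.exp
      have h3 := h1.const_mul (sg q ξ * Om φ ξ)
      refine h3.congr_deriv ?_
      unfold GG
      push_cast
      ring)
  have h4 := key.2
  rw [integral_neg, ← (sum_pp_JJ φ ht.le q).2] at h4
  exact h4

lemma continuousOn_JJ (φ : 𝓢(ℂ, ℂ)) (q : Q4) : ContinuousOn (JJ φ q) (Ici 0) := by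
  intro t ht
  refine continuousWithinAt_of_dominated (μ := (volume : Measure C3)) (F := fun s ξ => GG φ q s ξ)
    (bound := fun ξ => ‖sg q ξ * Om φ ξ‖) (Eventually.of_forall fun s => aesm_GG φ q s)
    ?_ (integrable_sg φ q).norm (ae_of_all _ fun ξ => ?_)
  · filter_upwards [self_mem_nhdsWithin] with s hs
    exact ae_of_all _ fun ξ => norm_GG_le φ q hs ξ
  · apply Continuous.continuousWithinAt
    unfold GG
    exact continuous_const.mul (Complex.continuous_ofReal.comp (Real.continuous_exp.comp (by fun_prop)))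

/-! ### decay -/

lemma norm_sy (p : ℕ × ℕ) (ξ : ℂ) : ‖sy p ξ‖ = (Real.pi * ‖ξ‖) ^ (p.1 + p.2) := by
  have h1 : ‖sz ξ‖ = Real.pi * ‖ξ‖ := by
    simp [sz, abs_of_pos Real.pi_pos]
  have h2 : ‖szb ξ‖ = Real.pi * ‖ξ‖ := by
    simp [szb, abs_of_pos Real.pi_pos]
  rw [sy, norm_mul, norm_pow, norm_pow, h1, h2, pow_add]

/-- square root of the decay rate -/
def Rt (ξ : C3) : ℝ := Real.sqrt (En ξ)

lemma Rt_nonneg (ξ : C3) : 0 ≤ Rt ξ := Real.sqrt_nonneg _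

lemma le_Rt {a : ℝ} {ξ : C3} (h : (Real.pi * a) ^ 2 ≤ En ξ) : Real.pi * a ≤ Rt ξ :=
  Real.le_sqrt_of_sq_le h

lemma norm_sg_le (q : Q4) (ξ : C3) : ‖sg q ξ‖ ≤ Rt ξ ^ ord q := by
  have hp : ∀ a : ℝ, 0 ≤ a ^ 2 := fun a => sq_nonneg a
  have e : ∀ a : ℝ, (Real.pi * a) ^ 2 = Real.pi ^ 2 * a ^ 2 := fun a => by ring
  have hpi : 0 ≤ Real.pi ^ 2 := sq_nonneg _
  have k1 : Real.pi * ‖ξ.1‖ ≤ Rt ξ := le_Rt (by
    rw [e, En]; exact mul_le_mul_of_nonneg_left (by linarith [hp ‖ξ.2.1‖, hp ‖ξ.2.2‖, hp ‖x4 ξ‖]) hpi)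
  have k2 : Real.pi * ‖ξ.2.1‖ ≤ Rt ξ := le_Rt (by
    rw [e, En]; exact mul_le_mul_of_nonneg_left (by linarith [hp ‖ξ.1‖, hp ‖ξ.2.2‖, hp ‖x4 ξ‖]) hpi)
  have k3 : Real.pi * ‖ξ.2.2‖ ≤ Rt ξ := le_Rt (by
    rw [e, En]; exact mul_le_mul_of_nonneg_left (by linarith [hp ‖ξ.1‖, hp ‖ξ.2.1‖, hp ‖x4 ξ‖]) hpi)
  have k4 : Real.pi * ‖x4 ξ‖ ≤ Rt ξ := le_Rt (by
    rw [e, En]; exact mul_le_mul_of_nonneg_left (by linarith [hp ‖ξ.1‖, hp ‖ξ.2.1‖, hp ‖ξ.2.2‖]) hpi)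
  have hq : ∀ a : ℂ, 0 ≤ Real.pi * ‖a‖ := fun a => by positivity
  have er : Rt ξ ^ ord q = Rt ξ ^ (q.1.1 + q.1.2) * Rt ξ ^ (q.2.1.1 + q.2.1.2) *
      Rt ξ ^ (q.2.2.1.1 + q.2.2.1.2) * Rt ξ ^ (q.2.2.2.1 + q.2.2.2.2) := by
    rw [← pow_add, ← pow_add, ← pow_add, ord]
  rw [er, sg, norm_mul, norm_mul, norm_mul, RCLike.norm_conj, RCLike.norm_conj, norm_sy, norm_sy,
    norm_sy, norm_sy]
  have hR := Rt_nonneg ξ
  have p1 := pow_le_pow_left₀ (hq ξ.1) k1 (q.1.1 + q.1.2)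
  have p2 := pow_le_pow_left₀ (hq ξ.2.1) k2 (q.2.1.1 + q.2.1.2)
  have p3 := pow_le_pow_left₀ (hq ξ.2.2) k3 (q.2.2.1.1 + q.2.2.1.2)
  have p4 := pow_le_pow_left₀ (hq (x4 ξ)) k4 (q.2.2.2.1 + q.2.2.2.2)
  have a2 : 0 ≤ (Real.pi * ‖ξ.2.1‖) ^ (q.2.1.1 + q.2.1.2) := pow_nonneg (hq _) _
  have a3 : 0 ≤ (Real.pi * ‖ξ.2.2‖) ^ (q.2.2.1.1 + q.2.2.1.2) := pow_nonneg (hq _) _
  have a4 : 0 ≤ (Real.pi * ‖x4 ξ‖) ^ (q.2.2.2.1 + q.2.2.2.2) := pow_nonneg (hq _) _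
  have r1 : 0 ≤ Rt ξ ^ (q.1.1 + q.1.2) := pow_nonneg hR _
  have r2 : 0 ≤ Rt ξ ^ (q.2.1.1 + q.2.1.2) := pow_nonneg hR _
  have r3 : 0 ≤ Rt ξ ^ (q.2.2.1.1 + q.2.2.1.2) := pow_nonneg hR _
  exact mul_le_mul (mul_le_mul (mul_le_mul p1 p2 a2 r1) p3 a3 (mul_nonneg r1 r2)) p4 a4
    (mul_nonneg (mul_nonneg r1 r2) r3)

lemma Rt_sq (ξ : C3) : Rt ξ ^ 2 = En ξ := Real.sq_sqrt (En_nonneg ξ)

lemma integrable_En_pow (φ : 𝓢(ℂ, ℂ)) (j : ℕ) : ∀ q : Q4,
    Integrable fun ξ : C3 => ((En ξ : ℝ) : ℂ) ^ j * (sg q ξ * Om φ ξ) := by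
  induction j with
  | zero =>
    intro q
    simpa using integrable_sg φ q
  | succ j ih =>
    intro q
    have h1 : ∀ L : List Q4, Integrable fun ξ : C3 => ((En ξ : ℝ) : ℂ) ^ j *
        ((L.map fun r => sg r ξ).sum * Om φ ξ) := by
      intro L
      induction L with
      | nil => simp
      | cons a L ihL =>
        refine ((ih a).add ihL).congr (ae_of_all _ fun ξ => ?_)
        simp only [Pi.add_apply, List.map_cons, List.sum_cons]
        ring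
    refine (h1 (pp q)).congr (ae_of_all _ fun ξ => ?_)
    simp only [sum_pp]
    ring

lemma tendsto_JJ (φ : 𝓢(ℂ, ℂ)) (q : Q4) (N k : ℕ) (hN : 1 ≤ N) (hq : ord q = 4 * N + 2 * k) :
    Tendsto (fun t : ℝ => (t : ℂ) ^ k * JJ φ q t) atTop (𝓝 0) := by
  have hsg : ∀ ξ, ‖sg q ξ‖ ≤ En ξ ^ (2 * N + k) := by
    intro ξ
    have := norm_sg_le q ξ
    rw [hq, show 4 * N + 2 * k = 2 * (2 * N + k) by ring, pow_mul, Rt_sq] at this
    exact this
  have e1 : (fun t : ℝ => (t : ℂ) ^ k * JJ φ q t) = fun t : ℝ => ∫ ξ : C3, (t : ℂ) ^ k * GG φ q t ξ := by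
    funext t
    rw [JJ_eq, integral_const_mul]
  have e2 : (0 : ℂ) = ∫ _ : C3, (0 : ℂ) := by simp
  rw [e1, e2]
  have hb : Integrable fun ξ : C3 => (k.factorial : ℝ) * (En ξ ^ (2 * N) * ‖Om φ ξ‖) := by
    have h1 := (integrable_En_pow φ (2 * N) ((0, 0), (0, 0), (0, 0), (0, 0))).norm
    refine Integrable.const_mul (h1.congr (ae_of_all _ fun ξ => ?_)) _
    simp only [sg, sy, norm_mul, norm_pow, Complex.norm_real, Real.norm_eq_abs,
      abs_of_nonneg (En_nonneg ξ)]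
    simp
  refine tendsto_integral_filter_of_dominated_convergence _
    (Eventually.of_forall fun t => (aesm_GG φ q t).const_mul _) ?_ hb (ae_of_all _ fun ξ => ?_)
  · filter_upwards [eventually_ge_atTop 0] with t ht
    refine ae_of_all _ fun ξ => ?_
    have hE := En_nonneg ξ
    have hf : (t * En ξ) ^ k / (k.factorial : ℝ) ≤ Real.exp (t * En ξ) :=
      Real.pow_div_factorial_le_exp _ (mul_nonneg ht hE) k
    have hk : (0 : ℝ) < k.factorial := by exact_mod_cast Nat.factorial_pos k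
    have h2 : (t * En ξ) ^ k * Real.exp (-(t * En ξ)) ≤ k.factorial := by
      rw [div_le_iff₀ hk] at hf
      have he := Real.exp_pos (t * En ξ)
      rw [Real.exp_neg, ← div_eq_mul_inv, div_le_iff₀ he]
      linarith
    have h3 : ‖GG φ q t ξ‖ ≤ En ξ ^ (2 * N + k) * ‖Om φ ξ‖ * Real.exp (-(t * En ξ)) := by
      unfold GG
      rw [norm_mul, norm_mul, Complex.norm_real, Real.norm_eq_abs, abs_of_pos (Real.exp_pos _)]
      exact mul_le_mul_of_nonneg_right (mul_le_mul_of_nonneg_right (hsg ξ) (norm_nonneg _))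
        (Real.exp_pos _).le
    rw [norm_mul, norm_pow, Complex.norm_real, Real.norm_eq_abs, abs_of_nonneg ht]
    calc t ^ k * ‖GG φ q t ξ‖ ≤ t ^ k * (En ξ ^ (2 * N + k) * ‖Om φ ξ‖ * Real.exp (-(t * En ξ))) :=
          mul_le_mul_of_nonneg_left h3 (by positivity)
      _ = ((t * En ξ) ^ k * Real.exp (-(t * En ξ))) * (En ξ ^ (2 * N) * ‖Om φ ξ‖) := by
          rw [pow_add, mul_pow]; ring
      _ ≤ (k.factorial : ℝ) * (En ξ ^ (2 * N) * ‖Om φ ξ‖) :=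
          mul_le_mul_of_nonneg_right h2 (by positivity)
  · rcases (En_nonneg ξ).eq_or_lt with h0 | hpos
    · have hz : sg q ξ = 0 := by
        have := hsg ξ
        rw [← h0, zero_pow (by omega)] at this
        exact norm_le_zero_iff.1 this
      have : ∀ t : ℝ, (t : ℂ) ^ k * GG φ q t ξ = 0 := by
        intro t
        simp [GG, hz]
      simp only [this]
      exact tendsto_const_nhds
    · have h1 : Tendsto (fun t : ℝ => (t * En ξ) ^ k * Real.exp (-(t * En ξ))) atTop (𝓝 0) :=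
        (Real.tendsto_pow_mul_exp_neg_atTop_nhds_zero k).comp
          (tendsto_id.atTop_mul_const hpos)
      have h2 : Tendsto (fun t : ℝ => (((t * En ξ) ^ k * Real.exp (-(t * En ξ)) : ℝ) : ℂ) *
          ((sg q ξ * Om φ ξ) / ((En ξ : ℝ) : ℂ) ^ k)) atTop (𝓝 0) := by
        have := ((Complex.continuous_ofReal.tendsto 0).comp h1).mul_const
          ((sg q ξ * Om φ ξ) / ((En ξ : ℝ) : ℂ) ^ k)
        simpa using this
      refine h2.congr fun t => ?_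
      have hne : ((En ξ : ℝ) : ℂ) ^ k ≠ 0 := pow_ne_zero _ (by exact_mod_cast hpos.ne')
      unfold GG
      push_cast
      field_simp
      ring

end Pool.Agent.Helper54.JET
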