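import Pool.Agent.Helper54.JET.Frame

set_option autoImplicit false

/-! From the frame to the bound of `T^n` on `L^4`. -/

noncomputable section

namespace Pool.Agent.Helper54.JET

open MeasureTheory Set Filter Topology Complex FourierTransform SchwartzMap
open Pool.Agent.Helper68.BA
open scoped ContDiff SchwartzMap LineDeriv ENNReal


lemma XJ_zero' (φ : 𝓢(ℂ, ℂ)) (p : ℕ × ℕ) : XJ φ 0 p = MM (sy p) φ := by
  rw [XJ]
  congr 2
  funext ξ
  simp [hr]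

/-- the symbol of the approximate inverse of `dz` -/
def uub (t : ℕ) (ξ : ℂ) : ℂ := (1 / (Real.pi * I)) * (ξ * ((ww t ξ : ℝ) : ℂ))

lemma tg_uub (t : ℕ) : (uub t).HasTemperateGrowth := by
  have h1 : (fun ξ : ℂ => ξ).HasTemperateGrowth := by
    have : (fun ξ : ℂ => ξ) = fun ξ => (ContinuousLinearMap.id ℝ ℂ ξ) := rfl
    rw [this]
    exact ContinuousLinearMap.hasTemperateGrowth _
  exact (Function.HasTemperateGrowth.const _).mul (h1.mul (tg_ww t))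

lemma sz_uub (t : ℕ) (ξ : ℂ) : sz ξ * uub t ξ = ((qq t ξ : ℝ) : ℂ) := by
  unfold sz uub qq
  have h1 := pi_I_ne
  have h2 : ξ * (starRingEnd ℂ) ξ = ((‖ξ‖ ^ 2 : ℝ) : ℂ) := by
    rw [Complex.mul_conj, Complex.normSq_eq_norm_sq]
  have h3 : (Real.pi * I : ℂ) * (1 / (Real.pi * I)) = 1 := by
    rw [mul_one_div, div_self h1]
  rw [Complex.ofReal_mul, ← h2]
  linear_combination (ξ * (starRingEnd ℂ) ξ * ((ww t ξ : ℝ) : ℂ)) * h3

/-- the symbol `qq^k` -/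
def qk (k s : ℕ) (ξ : ℂ) : ℂ := ((qq s ξ : ℝ) : ℂ) ^ k

lemma tg_qk (k s : ℕ) : (qk k s).HasTemperateGrowth := (tg_qq s).pow k

lemma MM_qk (k s : ℕ) (F : 𝓢(ℂ, ℂ)) : MM (qk k s) F = F - rem k s F := by
  have h1 : F = MM (fun _ => 1) F := (MM_one F).symm
  have h2 : rr k s = (fun _ => 1) - qk k s := rfl
  rw [rem_eq, h2, MM_sub (Function.HasTemperateGrowth.const 1) (tg_qk k s), ← h1]
  abel

/-- reduction from `m` to `0` -/
theorem reduce (n m : ℕ) (p : ℝ) (hp : 2 ≤ p) (C : ℝ)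
    (h : ∀ φ : 𝓢(ℂ, ℂ), eLpNorm (XJ φ 0 (n + m, m)) (ENNReal.ofReal p) volume ≤
      ENNReal.ofReal C * eLpNorm (XJ φ 0 (m, n + m)) (ENNReal.ofReal p) volume)
    (ψ : 𝓢(ℂ, ℂ)) : eLpNorm (XJ ψ 0 (n, 0)) (ENNReal.ofReal p) volume ≤
      ENNReal.ofReal C * eLpNorm (XJ ψ 0 (0, n)) (ENNReal.ofReal p) volume := by
  have h1p : (1 : ℝ≥0∞) ≤ ENNReal.ofReal p := by
    rw [← ENNReal.ofReal_one]
    exact ENNReal.ofReal_le_ofReal (by linarith)
  set F := XJ ψ 0 (n, 0) with hF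
  set G := XJ ψ 0 (0, n) with hG
  have key : ∀ s : ℕ, eLpNorm (F - rem (2 * m) s F : 𝓢(ℂ, ℂ)) (ENNReal.ofReal p) volume ≤
      ENNReal.ofReal C * eLpNorm (G - rem (2 * m) s G : 𝓢(ℂ, ℂ)) (ENNReal.ofReal p) volume := by
    intro s
    have hg : ((uu s) ^ m * (uub s) ^ m).HasTemperateGrowth := ((tg_uu s).pow m).mul ((tg_uub s).pow m)
    have h1 := h (MM ((uu s) ^ m * (uub s) ^ m) ψ)
    have g1 : sy (n + m, m) * ((uu s) ^ m * (uub s) ^ m) = qk (2 * m) s * sy (n, 0) := by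
      funext ξ
      simp only [Pi.mul_apply, Pi.pow_apply, sy, qk]
      have a := szb_uu s ξ
      have b := sz_uub s ξ
      calc sz ξ ^ (n + m) * szb ξ ^ m * (uu s ξ ^ m * uub s ξ ^ m) =
          sz ξ ^ n * (szb ξ * uu s ξ) ^ m * (sz ξ * uub s ξ) ^ m := by ring
        _ = _ := by rw [a, b]; ring
    have g2 : sy (m, n + m) * ((uu s) ^ m * (uub s) ^ m) = qk (2 * m) s * sy (0, n) := by
      funext ξ
      simp only [Pi.mul_apply, Pi.pow_apply, sy, qk]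
      have a := szb_uu s ξ
      have b := sz_uub s ξ
      calc sz ξ ^ m * szb ξ ^ (n + m) * (uu s ξ ^ m * uub s ξ ^ m) =
          szb ξ ^ n * (szb ξ * uu s ξ) ^ m * (sz ξ * uub s ξ) ^ m := by ring
        _ = _ := by rw [a, b]; ring
    have e1 : XJ (MM ((uu s) ^ m * (uub s) ^ m) ψ) 0 (n + m, m) = F - rem (2 * m) s F := by
      rw [XJ_zero', MM_MM (tg_sy _) hg, ← MM_qk, hF, XJ_zero', MM_MM (tg_qk _ _) (tg_sy _), g1]
    have e2 : XJ (MM ((uu s) ^ m * (uub s) ^ m) ψ) 0 (m, n + m) = G - rem (2 * m) s G := by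
      rw [XJ_zero', MM_MM (tg_sy _) hg, ← MM_qk, hG, XJ_zero', MM_MM (tg_qk _ _) (tg_sy _), g2]
    rw [e1, e2] at h1
    exact h1
  have hb : ∀ s : ℕ, eLpNorm F (ENNReal.ofReal p) volume ≤
      ENNReal.ofReal C * (eLpNorm G (ENNReal.ofReal p) volume +
        eLpNorm (rem (2 * m) s G) (ENNReal.ofReal p) volume) +
        eLpNorm (rem (2 * m) s F) (ENNReal.ofReal p) volume := by
    intro s
    have e : (F : ℂ → ℂ) = ((F - rem (2 * m) s F : 𝓢(ℂ, ℂ)) : ℂ → ℂ) + (rem (2 * m) s F : ℂ → ℂ) := by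
      funext z
      simp
    have e' : ((G - rem (2 * m) s G : 𝓢(ℂ, ℂ)) : ℂ → ℂ) = (G : ℂ → ℂ) - (rem (2 * m) s G : ℂ → ℂ) := by
      funext z
      simp
    have h2 : eLpNorm F (ENNReal.ofReal p) volume ≤
        eLpNorm (F - rem (2 * m) s F : 𝓢(ℂ, ℂ)) (ENNReal.ofReal p) volume +
        eLpNorm (rem (2 * m) s F) (ENNReal.ofReal p) volume := by
      conv_lhs => rw [e]
      exact eLpNorm_add_le (F - rem (2 * m) s F : 𝓢(ℂ, ℂ)).continuous.aestronglyMeasurable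
        (rem (2 * m) s F).continuous.aestronglyMeasurable h1p
    have h3 : eLpNorm (G - rem (2 * m) s G : 𝓢(ℂ, ℂ)) (ENNReal.ofReal p) volume ≤
        eLpNorm G (ENNReal.ofReal p) volume +
        eLpNorm (rem (2 * m) s G) (ENNReal.ofReal p) volume := by
      rw [e']
      exact eLpNorm_sub_le G.continuous.aestronglyMeasurable
        (rem (2 * m) s G).continuous.aestronglyMeasurable h1p
    refine h2.trans (add_le_add ((key s).trans ?_) le_rfl)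
    gcongr
  have hlim : Tendsto (fun s : ℕ => ENNReal.ofReal C * (eLpNorm G (ENNReal.ofReal p) volume +
        eLpNorm (rem (2 * m) s G) (ENNReal.ofReal p) volume) +
        eLpNorm (rem (2 * m) s F) (ENNReal.ofReal p) volume) atTop
      (𝓝 (ENNReal.ofReal C * (eLpNorm G (ENNReal.ofReal p) volume + 0) + 0)) := by
    refine Tendsto.add ?_ (rem_Lp_tendsto (2 * m) F p hp)
    apply ENNReal.Tendsto.const_mul _ (Or.inr ENNReal.ofReal_ne_top)
    exact tendsto_const_nhds.add (rem_Lp_tendsto (2 * m) G p hp)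
  rw [add_zero, add_zero] at hlim
  exact ge_of_tendsto' hlim hb

/-- from the potential form to the frozen form -/
theorem toFrozen (n m : ℕ) (p : ℝ) (hp : 2 ≤ p) (C : ℝ)
    (h : ∀ φ : 𝓢(ℂ, ℂ), eLpNorm (XJ φ 0 (n + m, m)) (ENNReal.ofReal p) volume ≤
      ENNReal.ofReal C * eLpNorm (XJ φ 0 (m, n + m)) (ENNReal.ofReal p) volume) (f : 𝓢(ℂ, ℂ)) :
    eLpNorm
        (fun z : ℂ => ∫ ξ : ℂ,
          Complex.exp (2 * (Real.pi : ℂ) * Complex.I * ((z.re * ξ.re + z.im * ξ.im : ℝ) : ℂ)) *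
            ((starRingEnd ℂ ξ / ξ) ^ n *
              ∫ w : ℂ, Complex.exp (-(2 * (Real.pi : ℂ) * Complex.I *
                ((w.re * ξ.re + w.im * ξ.im : ℝ) : ℂ))) * f w))
        (ENNReal.ofReal p) MeasureTheory.volume
      ≤ ENNReal.ofReal C *
        MeasureTheory.eLpNorm (fun z : ℂ => f z) (ENNReal.ofReal p) MeasureTheory.volume := by
  rw [frozen_eq n f]
  refine mult_bound n f p hp C fun t => ?_
  have h1 := reduce n m p hp C h (phi n t f)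
  rw [XJ_zero, XJ_zero] at h1
  simpa using h1

/-- the `L^4` norm of a Schwartz function -/
lemma eLpNorm_four (ψ : 𝓢(ℂ, ℂ)) : eLpNorm ψ (ENNReal.ofReal 4) volume =
    ENNReal.ofReal ((∫ z, ‖ψ z‖ ^ 4) ^ (1 / 4 : ℝ)) := by
  rw [eLpNorm_eq_lintegral_rpow_enorm_toReal (by simp) ENNReal.ofReal_ne_top,
    ENNReal.toReal_ofReal (by norm_num)]
  have h1 : ∀ z, ‖ψ z‖ₑ ^ (4 : ℝ) = ENNReal.ofReal (‖ψ z‖ ^ 4) := by
    intro z
    rw [← ofReal_norm, ENNReal.ofReal_rpow_of_nonneg (norm_nonneg _) (by norm_num)]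
    congr 1
    rw [show (4 : ℝ) = ((4 : ℕ) : ℝ) by norm_num, Real.rpow_natCast]
  simp only [h1]
  rw [← ofReal_integral_eq_lintegral_ofReal (integrable_quart ψ) (ae_of_all _ fun z => by positivity),
    ENNReal.ofReal_rpow_of_nonneg (integral_nonneg fun z => by positivity) (by norm_num)]

lemma four_bound (F G : 𝓢(ℂ, ℂ)) (A B C : ℝ) (hB : 0 < B) (hC : 0 ≤ C) (hA : A ≤ B * C ^ 4)
    (h : B * ∫ z, ‖F z‖ ^ 4 ≤ A * ∫ z, ‖G z‖ ^ 4) :
    eLpNorm F (ENNReal.ofReal 4) volume ≤ ENNReal.ofReal C * eLpNorm G (ENNReal.ofReal 4) volume := by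
  have hF : 0 ≤ ∫ z, ‖F z‖ ^ 4 := integral_nonneg fun z => by positivity
  have hG : 0 ≤ ∫ z, ‖G z‖ ^ 4 := integral_nonneg fun z => by positivity
  rw [eLpNorm_four, eLpNorm_four, ← ENNReal.ofReal_mul hC]
  apply ENNReal.ofReal_le_ofReal
  have h1 : ∫ z, ‖F z‖ ^ 4 ≤ C ^ 4 * ∫ z, ‖G z‖ ^ 4 := by
    have h2 : B * ∫ z, ‖F z‖ ^ 4 ≤ B * (C ^ 4 * ∫ z, ‖G z‖ ^ 4) := by
      refine h.trans ?_
      rw [← mul_assoc]
      exact mul_le_mul_of_nonneg_right hA hG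
    exact le_of_mul_le_mul_left h2 hB
  calc (∫ z, ‖F z‖ ^ 4) ^ (1 / 4 : ℝ) ≤ (C ^ 4 * ∫ z, ‖G z‖ ^ 4) ^ (1 / 4 : ℝ) :=
        Real.rpow_le_rpow hF h1 (by norm_num)
    _ = C * (∫ z, ‖G z‖ ^ 4) ^ (1 / 4 : ℝ) := by
        rw [Real.mul_rpow (by positivity) hG, ← Real.rpow_natCast, ← Real.rpow_mul hC]
        norm_num

/-- FRAME THEOREM, frozen form, `p = 4` -/
theorem frameT (n m K : ℕ) (hn : 1 ≤ n) (U M : List Fm) (Mi : Fm) (A B C : ℝ)
    (ho : ordOK (n + 2 * m) U M K = true)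
    (hR : ∀ X : ℕ × ℕ → ℂ, 0 ≤ ev (body U M K) X)
    (hM : ∀ X : ℕ × ℕ → ℂ, ev (U.getD 0 [] ++ apD Mi) X + B * ‖X (n + m, m)‖ ^ 4 ≤
      A * ‖X (m, n + m)‖ ^ 4) (hB : 0 < B) (hC : 0 ≤ C) (hA : A ≤ B * C ^ 4) (f : 𝓢(ℂ, ℂ)) :
    eLpNorm
        (fun z : ℂ => ∫ ξ : ℂ,
          Complex.exp (2 * (Real.pi : ℂ) * Complex.I * ((z.re * ξ.re + z.im * ξ.im : ℝ) : ℂ)) *
            ((starRingEnd ℂ ξ / ξ) ^ n *
              ∫ w : ℂ, Complex.exp (-(2 * (Real.pi : ℂ) * Complex.I *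
                ((w.re * ξ.re + w.im * ξ.im : ℝ) : ℂ))) * f w))
        (ENNReal.ofReal 4) MeasureTheory.volume
      ≤ ENNReal.ofReal C *
        MeasureTheory.eLpNorm (fun z : ℂ => f z) (ENNReal.ofReal 4) MeasureTheory.volume :=
  toFrozen n m 4 (by norm_num) C (fun φ => four_bound _ _ A B C hB hC hA
    (frame n m K hn U M Mi A B ho hR hM φ)) f

end Pool.Agent.Helper54.JET
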