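import Mathlib

set_option autoImplicit false

/-! Quartic forms in the jets `X (i,j) = d^i dbar^j phi`: combinatorial definitions. -/

namespace Pool.Agent.Helper54.JET

/-- index of a quartic monomial `X_a X_b conj(X_c) conj(X_d)` -/
abbrev Q4 : Type := (ℕ × ℕ) × (ℕ × ℕ) × (ℕ × ℕ) × (ℕ × ℕ)

/-- holomorphic derivative of a plain factor -/
def ax (p : ℕ × ℕ) : ℕ × ℕ := (p.1 + 1, p.2)

/-- antiholomorphic derivative of a plain factor -/
def ay (p : ℕ × ℕ) : ℕ × ℕ := (p.1, p.2 + 1)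

def D1 (q : Q4) : Q4 := (ax q.1, q.2.1, q.2.2.1, q.2.2.2)
def D2 (q : Q4) : Q4 := (q.1, ax q.2.1, q.2.2.1, q.2.2.2)
def D3 (q : Q4) : Q4 := (q.1, q.2.1, ay q.2.2.1, q.2.2.2)
def D4 (q : Q4) : Q4 := (q.1, q.2.1, q.2.2.1, ay q.2.2.2)
def B1 (q : Q4) : Q4 := (ay q.1, q.2.1, q.2.2.1, q.2.2.2)
def B2 (q : Q4) : Q4 := (q.1, ay q.2.1, q.2.2.1, q.2.2.2)
def B3 (q : Q4) : Q4 := (q.1, q.2.1, ax q.2.2.1, q.2.2.2)
def B4 (q : Q4) : Q4 := (q.1, q.2.1, q.2.2.1, ax q.2.2.2)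

/-- the monomials of `d` (monomial) -/
def dd (q : Q4) : List Q4 := [D1 q, D2 q, D3 q, D4 q]

/-- the monomials of `- d/dt` (monomial), after integration by parts -/
def pp (q : Q4) : List Q4 :=
  [D1 (B2 q), B1 (D2 q), D1 (B3 q), B1 (D3 q), D1 (B4 q), B1 (D4 q),
   D2 (B3 q), B2 (D3 q), D2 (B4 q), B2 (D4 q), D3 (B4 q), B3 (D4 q)]

/-- total order of a monomial -/
def ord (q : Q4) : ℕ :=
  (q.1.1 + q.1.2) + (q.2.1.1 + q.2.1.2) + (q.2.2.1.1 + q.2.2.1.2) + (q.2.2.2.1 + q.2.2.2.2)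

/-- an integer form: a list of coefficients and monomials -/
abbrev Fm : Type := List (ℤ × Q4)

/-- multiply by an integer -/
def sc (a : ℤ) (L : Fm) : Fm := L.map fun c => (a * c.1, c.2)

/-- `P[L]` -/
def apP (L : Fm) : Fm := L.flatMap fun c => (pp c.2).map fun r => (c.1, r)

/-- `d L` -/
def apD (L : Fm) : Fm := L.flatMap fun c => (dd c.2).map fun r => (c.1, r)

/-- the `k`-th part of the dissipation, weight `t^k` -/
def part (U M : List Fm) (k : ℕ) : Fm :=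
  apP (U.getD k []) ++ sc (-((k : ℤ) + 1)) (U.getD (k + 1) []) ++ sc (-1) (apD (M.getD k []))

/-- the whole dissipation -/
def body (U M : List Fm) (K : ℕ) : Fm := (List.range (K + 1)).flatMap (part U M)

/-- value of a monomial at a jet -/
noncomputable def mono (q : Q4) (X : ℕ × ℕ → ℂ) : ℂ :=
  X q.1 * X q.2.1 * starRingEnd ℂ (X q.2.2.1) * starRingEnd ℂ (X q.2.2.2)

/-- value of a form at a jet -/
noncomputable def ev (L : Fm) (X : ℕ × ℕ → ℂ) : ℝ := (L.map fun c => (c.1 : ℝ) * (mono c.2 X).re).sum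

/-- the order conditions -/
def ordOK (N : ℕ) (U M : List Fm) (K : ℕ) : Bool :=
  (U.length ≤ K + 1) && (M.length ≤ K + 1) &&
  ((List.range (K + 1)).all fun k =>
    (U.getD k []).all (fun c => ord c.2 == 4 * N + 2 * k) &&
    (M.getD k []).all (fun c => ord c.2 == 4 * N + 2 * k + 1))

/-- `J^d_a` (with `a` shifted by `m`, i.e. `0 ≤ a`), as a jet index; `N = n + 2 m` -/
def jx (N : ℕ) (d a : ℕ) : ℕ × ℕ := (a, N + d - a)

end Pool.Agent.Helper54.JET
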