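import Pool.Agent.Helper54.JET.Evo

set_option autoImplicit false

/-! The frame: a certificate gives an L^4 inequality. -/

noncomputable section

namespace Pool.Agent.Helper54.JET

open MeasureTheory Set Filter Topology Complex FourierTransform SchwartzMap
open Pool.Agent.Helper68.BA
open scoped ContDiff SchwartzMap LineDeriv ENNReal


/-! ### algebra of forms -/

lemma ev_nil (X : ℕ × ℕ → ℂ) : ev [] X = 0 := rfl

lemma ev_cons (c : ℤ × Q4) (L : Fm) (X : ℕ × ℕ → ℂ) :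
    ev (c :: L) X = (c.1 : ℝ) * (mono c.2 X).re + ev L X := by
  simp [ev]

lemma ev_append (L L' : Fm) (X : ℕ × ℕ → ℂ) : ev (L ++ L') X = ev L X + ev L' X := by
  simp [ev]

lemma ev_sc (a : ℤ) (L : Fm) (X : ℕ × ℕ → ℂ) : ev (sc a L) X = a * ev L X := by
  induction L with
  | nil => simp [sc, ev_nil]
  | cons c L ih =>
    have : sc a (c :: L) = (a * c.1, c.2) :: sc a L := rfl
    rw [this, ev_cons, ev_cons, ih]
    push_cast
    ring

lemma ev_flat {β : Type} (f : β → Fm) (L : List β) (X : ℕ × ℕ → ℂ) :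
    ev (L.flatMap f) X = (L.map fun b => ev (f b) X).sum := by
  induction L with
  | nil => simp [ev_nil]
  | cons b L ih => rw [List.flatMap_cons, ev_append, ih, List.map_cons, List.sum_cons]

/-- all monomials have order `o` -/
def hasOrd (o : ℕ) (L : Fm) : Prop := ∀ c ∈ L, ord c.2 = o

lemma hasOrd_append {o : ℕ} {L L' : Fm} (h : hasOrd o L) (h' : hasOrd o L') : hasOrd o (L ++ L') := by
  intro c hc
  rcases List.mem_append.1 hc with hc | hc
  · exact h c hc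
  · exact h' c hc

lemma hasOrd_sc {o : ℕ} {L : Fm} (a : ℤ) (h : hasOrd o L) : hasOrd o (sc a L) := by
  intro c hc
  obtain ⟨d, hd, rfl⟩ := List.mem_map.1 hc
  exact h d hd

lemma hasOrd_apP {o : ℕ} {L : Fm} (h : hasOrd o L) : hasOrd (o + 2) (apP L) := by
  intro c hc
  obtain ⟨d, hd, hc⟩ := List.mem_flatMap.1 hc
  obtain ⟨r, hr, rfl⟩ := List.mem_map.1 hc
  have hd' := h d hd
  simp only [pp, List.mem_cons, List.not_mem_nil, or_false] at hr
  rcases hr with rfl | rfl | rfl | rfl | rfl | rfl | rfl | rfl | rfl | rfl | rfl | rfl <;>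
  · simp only [ord, D1, D2, D3, D4, B1, B2, B3, B4, ax, ay] at hd' ⊢
    omega

lemma hasOrd_apD {o : ℕ} {L : Fm} (h : hasOrd o L) : hasOrd (o + 1) (apD L) := by
  intro c hc
  obtain ⟨d, hd, hc⟩ := List.mem_flatMap.1 hc
  obtain ⟨r, hr, rfl⟩ := List.mem_map.1 hc
  have hd' := h d hd
  simp only [dd, List.mem_cons, List.not_mem_nil, or_false] at hr
  rcases hr with rfl | rfl | rfl | rfl <;>
  · simp only [ord, D1, D2, D3, D4, ax, ay] at hd' ⊢
    omega

lemma mono_scale (q : Q4) (s : ℝ) (X : ℕ × ℕ → ℂ) :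
    mono q (fun p => (s : ℂ) ^ (p.1 + p.2) * X p) = (s : ℂ) ^ (ord q) * mono q X := by
  simp only [mono, map_mul, map_pow, Complex.conj_ofReal, ord, pow_add]
  ring

lemma ev_scale {o : ℕ} {L : Fm} (h : hasOrd o L) (s : ℝ) (X : ℕ × ℕ → ℂ) :
    ev L (fun p => (s : ℂ) ^ (p.1 + p.2) * X p) = s ^ o * ev L X := by
  induction L with
  | nil => simp [ev_nil]
  | cons c L ih =>
    have h1 : ord c.2 = o := h c (List.mem_cons_self)
    rw [ev_cons, ev_cons, ih (fun d hd => h d (List.mem_cons_of_mem _ hd)), mono_scale, h1,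
      ← Complex.ofReal_pow, Complex.re_ofReal_mul]
    ring

/-! ### integrated forms -/

/-- integral of a form along the flow -/
def IL (φ : 𝓢(ℂ, ℂ)) (L : Fm) (t : ℝ) : ℝ := (L.map fun c => (c.1 : ℝ) * (JJ φ c.2 t).re).sum

lemma IL_nil (φ : 𝓢(ℂ, ℂ)) (t : ℝ) : IL φ [] t = 0 := rfl

lemma IL_cons (φ : 𝓢(ℂ, ℂ)) (c : ℤ × Q4) (L : Fm) (t : ℝ) :
    IL φ (c :: L) t = (c.1 : ℝ) * (JJ φ c.2 t).re + IL φ L t := by
  simp [IL]

lemma IL_append (φ : 𝓢(ℂ, ℂ)) (L L' : Fm) (t : ℝ) : IL φ (L ++ L') t = IL φ L t + IL φ L' t := by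
  simp [IL]

lemma IL_sc (φ : 𝓢(ℂ, ℂ)) (a : ℤ) (L : Fm) (t : ℝ) : IL φ (sc a L) t = a * IL φ L t := by
  induction L with
  | nil => simp [sc, IL_nil]
  | cons c L ih =>
    have : sc a (c :: L) = (a * c.1, c.2) :: sc a L := rfl
    rw [this, IL_cons, IL_cons, ih]
    push_cast
    ring

lemma IL_map (φ : 𝓢(ℂ, ℂ)) (a : ℤ) (L : List Q4) (t : ℝ) :
    IL φ (L.map fun r => (a, r)) t = a * ((L.map fun r => JJ φ r t).sum).re := by
  induction L with
  | nil => simp [IL_nil]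
  | cons c L ih =>
    rw [List.map_cons, IL_cons, ih, List.map_cons, List.sum_cons, Complex.add_re]
    ring

lemma IL_apD (φ : 𝓢(ℂ, ℂ)) {t : ℝ} (ht : 0 ≤ t) (L : Fm) : IL φ (apD L) t = 0 := by
  induction L with
  | nil => rfl
  | cons c L ih =>
    have : apD (c :: L) = ((dd c.2).map fun r => (c.1, r)) ++ apD L := rfl
    rw [this, IL_append, IL_map, sum_dd_JJ φ ht, ih]
    simp

lemma hasDerivAt_IL (φ : 𝓢(ℂ, ℂ)) {t : ℝ} (ht : 0 < t) (L : Fm) :
    HasDerivAt (IL φ L) (-(IL φ (apP L) t)) t := by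
  induction L with
  | nil =>
    have : IL φ [] = fun _ => (0 : ℝ) := rfl
    rw [this]
    simpa [apP, IL_nil] using hasDerivAt_const t (0 : ℝ)
  | cons c L ih =>
    have e1 : IL φ (c :: L) = fun t => (c.1 : ℝ) * (JJ φ c.2 t).re + IL φ L t := by
      funext t
      exact IL_cons φ c L t
    have e2 : apP (c :: L) = ((pp c.2).map fun r => (c.1, r)) ++ apP L := rfl
    rw [e1, e2, IL_append, IL_map]
    have h1 := (Complex.reCLM.hasFDerivAt.comp_hasDerivAt t (hasDerivAt_JJ φ ht c.2)).const_mul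
      (c.1 : ℝ)
    have h2 := h1.add ih
    refine h2.congr_deriv ?_
    simp only [Complex.reCLM_apply, Complex.neg_re]
    ring

lemma continuousOn_IL (φ : 𝓢(ℂ, ℂ)) (L : Fm) : ContinuousOn (IL φ L) (Ici 0) := by
  induction L with
  | nil => exact continuousOn_const
  | cons c L ih =>
    have e1 : IL φ (c :: L) = fun t => (c.1 : ℝ) * (JJ φ c.2 t).re + IL φ L t := by
      funext t
      exact IL_cons φ c L t
    rw [e1]
    exact (continuousOn_const.mul (Complex.continuous_re.comp_continuousOn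
      (continuousOn_JJ φ c.2))).add ih

lemma tendsto_IL (φ : 𝓢(ℂ, ℂ)) (N k : ℕ) (hN : 1 ≤ N) (L : Fm) (hL : hasOrd (4 * N + 2 * k) L) :
    Tendsto (fun t : ℝ => t ^ k * IL φ L t) atTop (𝓝 0) := by
  induction L with
  | nil => simp [IL_nil]
  | cons c L ih =>
    have h1 := tendsto_JJ φ c.2 N k hN (hL c List.mem_cons_self)
    have h2 := ih fun d hd => hL d (List.mem_cons_of_mem _ hd)
    have h3 := ((Complex.continuous_re.tendsto 0).comp h1).const_mul (c.1 : ℝ)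
    have h4 := h3.add h2
    simp only [Complex.zero_re, mul_zero, add_zero] at h4
    refine h4.congr fun t => ?_
    simp only [Function.comp, IL_cons]
    rw [← Complex.ofReal_pow, Complex.re_ofReal_mul]
    ring

/-! ### physical side -/

/-- the jet of the flow -/
def Xt (φ : 𝓢(ℂ, ℂ)) (t : ℝ) (z : ℂ) : ℕ × ℕ → ℂ := fun p => XJ φ t p z

lemma integrable_mono (φ : 𝓢(ℂ, ℂ)) (t : ℝ) (q : Q4) : Integrable fun z => mono q (Xt φ t z) := by
  have hb : ∀ ψ : 𝓢(ℂ, ℂ), ∃ C : ℝ, ∀ z, ‖ψ z‖ ≤ C := by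
    intro ψ
    obtain ⟨C, hC⟩ := ψ.decay 0 0
    exact ⟨C, fun z => by simpa using hC.2 z⟩
  obtain ⟨C2, h2⟩ := hb (XJ φ t q.2.1)
  obtain ⟨C3, h3⟩ := hb (XJ φ t q.2.2.1)
  obtain ⟨C4, h4⟩ := hb (XJ φ t q.2.2.2)
  have h1 : Integrable fun z => XJ φ t q.1 z := (XJ φ t q.1).integrable
  refine ((h1.norm.mul_const (C2 * C3 * C4))).mono' ?_ (ae_of_all _ fun z => ?_)
  · apply Continuous.aestronglyMeasurable
    unfold mono Xt
    have k : ∀ p, Continuous fun z => XJ φ t p z := fun p => (XJ φ t p).continuous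
    exact (((k _).mul (k _)).mul (Complex.continuous_conj.comp (k _))).mul
      (Complex.continuous_conj.comp (k _))
  · simp only [mono, Xt, norm_mul, RCLike.norm_conj]
    have a2 := h2 z
    have a3 := h3 z
    have a4 := h4 z
    have n1 := norm_nonneg (XJ φ t q.1 z)
    have n2 := norm_nonneg (XJ φ t q.2.1 z)
    have n3 := norm_nonneg (XJ φ t q.2.2.1 z)
    have n4 := norm_nonneg (XJ φ t q.2.2.2 z)
    have hC2 : 0 ≤ C2 := n2.trans a2
    have hC3 : 0 ≤ C3 := n3.trans a3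
    calc ‖XJ φ t q.1 z‖ * ‖XJ φ t q.2.1 z‖ * ‖XJ φ t q.2.2.1 z‖ * ‖XJ φ t q.2.2.2 z‖
        = ‖XJ φ t q.1 z‖ * (‖XJ φ t q.2.1 z‖ * ‖XJ φ t q.2.2.1 z‖ * ‖XJ φ t q.2.2.2 z‖) := by ring
      _ ≤ ‖XJ φ t q.1 z‖ * (C2 * C3 * C4) := by
        refine mul_le_mul_of_nonneg_left ?_ n1
        exact mul_le_mul (mul_le_mul a2 a3 n3 hC2) a4 n4 (mul_nonneg hC2 hC3)

lemma int_mono (φ : 𝓢(ℂ, ℂ)) {t : ℝ} (ht : 0 ≤ t) (q : Q4) :
    ∫ z, mono q (Xt φ t z) = JJ φ q t := phys φ ht q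

lemma int_ev (φ : 𝓢(ℂ, ℂ)) {t : ℝ} (ht : 0 ≤ t) (L : Fm) :
    Integrable (fun z => ev L (Xt φ t z)) ∧ ∫ z, ev L (Xt φ t z) = IL φ L t := by
  induction L with
  | nil => simp [ev_nil, IL_nil]
  | cons c L ih =>
    simp only [ev_cons]
    have h1 : Integrable fun z => (c.1 : ℝ) * (mono c.2 (Xt φ t z)).re :=
      (integrable_mono φ t c.2).re.const_mul _
    refine ⟨h1.add ih.1, ?_⟩
    rw [integral_add h1 ih.1, ih.2, integral_const_mul, IL_cons]
    congr 2
    have h2 := integral_re (integrable_mono φ t c.2)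
    rw [← int_mono φ ht]
    exact h2

/-! ### the frame theorem -/

section

variable (N K : ℕ) (U M : List Fm)

lemma ordOK_spec (h : ordOK N U M K = true) :
    U.length ≤ K + 1 ∧ (∀ k ≤ K, hasOrd (4 * N + 2 * k) (U.getD k [])) ∧
      (∀ k ≤ K, hasOrd (4 * N + 2 * k + 1) (M.getD k [])) := by
  simp only [ordOK, Bool.and_eq_true, decide_eq_true_eq, List.all_eq_true, List.mem_range,
    beq_iff_eq] at h
  exact ⟨h.1.1, fun k hk => (h.2 k (by omega)).1, fun k hk => (h.2 k (by omega)).2⟩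

lemma U_last (h : U.length ≤ K + 1) : U.getD (K + 1) [] = [] := by
  rw [List.getD_eq_default _ _ h]

lemma part_ord (h : ordOK N U M K = true) (k : ℕ) (hk : k ≤ K) :
    hasOrd (4 * N + 2 * k + 2) (part U M k) := by
  obtain ⟨h1, h2, h3⟩ := ordOK_spec N K U M h
  unfold part
  refine hasOrd_append (hasOrd_append (hasOrd_apP (h2 k hk)) (hasOrd_sc _ ?_))
    (hasOrd_sc _ (hasOrd_apD (h3 k hk)))
  rcases Nat.lt_or_ge k K with hk' | hk'
  · have := h2 (k + 1) hk'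
    exact this
  · have e : k = K := le_antisymm hk hk'
    rw [e, U_last K U h1]
    intro c hc
    exact absurd hc List.not_mem_nil

lemma sum_list_range (f : ℕ → ℝ) (n : ℕ) :
    ((List.range n).map f).sum = ∑ k ∈ Finset.range n, f k := by
  induction n with
  | zero => simp
  | succ n ih => rw [List.range_succ, List.map_append, List.sum_append, ih, Finset.sum_range_succ]; simp

lemma ev_body (X : ℕ × ℕ → ℂ) : ev (body U M K) X = ∑ k ∈ Finset.range (K + 1), ev (part U M k) X := by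
  unfold body
  rw [ev_flat, sum_list_range]

/-- pointwise positivity of the weighted dissipation -/
lemma sum_part_nonneg (h : ordOK N U M K = true) (hR : ∀ X : ℕ × ℕ → ℂ, 0 ≤ ev (body U M K) X)
    {t : ℝ} (ht : 0 < t) (X : ℕ × ℕ → ℂ) :
    0 ≤ ∑ k ∈ Finset.range (K + 1), t ^ k * ev (part U M k) X := by
  have h1 := hR (fun p => ((Real.sqrt t : ℝ) : ℂ) ^ (p.1 + p.2) * X p)
  rw [ev_body] at h1
  have hs : 0 < Real.sqrt t := Real.sqrt_pos.2 ht
  have e : ∑ k ∈ Finset.range (K + 1),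
      ev (part U M k) (fun p => ((Real.sqrt t : ℝ) : ℂ) ^ (p.1 + p.2) * X p) =
      (Real.sqrt t) ^ (4 * N + 2) * ∑ k ∈ Finset.range (K + 1), t ^ k * ev (part U M k) X := by
    rw [Finset.mul_sum]
    refine Finset.sum_congr rfl fun k hk => ?_
    rw [ev_scale (part_ord N K U M h k (Nat.lt_succ_iff.1 (Finset.mem_range.1 hk)))]
    have h2 : (Real.sqrt t) ^ (4 * N + 2 * k + 2) = (Real.sqrt t) ^ (4 * N + 2) * t ^ k := by
      have h3 : (Real.sqrt t) ^ (2 * k) = t ^ k := by rw [pow_mul, Real.sq_sqrt ht.le]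
      rw [show 4 * N + 2 * k + 2 = (4 * N + 2) + 2 * k by ring, pow_add, h3]
    rw [h2]
    ring
  rw [e] at h1
  exact nonneg_of_mul_nonneg_right h1 (pow_pos hs _)

/-- the functional -/
def Phi (φ : 𝓢(ℂ, ℂ)) (t : ℝ) : ℝ := ∑ k ∈ Finset.range (K + 1), t ^ k * IL φ (U.getD k []) t

/-- minus its derivative -/
def Dis (φ : 𝓢(ℂ, ℂ)) (t : ℝ) : ℝ := ∑ k ∈ Finset.range (K + 1), t ^ k * IL φ (part U M k) t

lemma Dis_nonneg (h : ordOK N U M K = true) (hR : ∀ X : ℕ × ℕ → ℂ, 0 ≤ ev (body U M K) X)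
    (φ : 𝓢(ℂ, ℂ)) {t : ℝ} (ht : 0 < t) : 0 ≤ Dis K U M φ t := by
  have e : Dis K U M φ t = ∫ z, ∑ k ∈ Finset.range (K + 1), t ^ k * ev (part U M k) (Xt φ t z) := by
    rw [integral_finsetSum _ fun k _ => (int_ev φ ht.le _).1.const_mul _]
    refine Finset.sum_congr rfl fun k _ => ?_
    rw [integral_const_mul, (int_ev φ ht.le _).2]
  rw [e]
  exact integral_nonneg fun z => sum_part_nonneg N K U M h hR ht _

lemma hasDerivAt_Phi (h : U.length ≤ K + 1) (φ : 𝓢(ℂ, ℂ)) {t : ℝ} (ht : 0 < t) :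
    HasDerivAt (Phi K U φ) (-(Dis K U M φ t)) t := by
  have h1 : HasDerivAt (Phi K U φ) (∑ k ∈ Finset.range (K + 1),
      ((k : ℝ) * t ^ (k - 1) * IL φ (U.getD k []) t +
        t ^ k * (-(IL φ (apP (U.getD k [])) t)))) t := by
    unfold Phi
    exact HasDerivAt.fun_sum fun k _ => (hasDerivAt_pow k t).mul (hasDerivAt_IL φ ht _)
  refine h1.congr_deriv ?_
  have e1 : Dis K U M φ t = ∑ k ∈ Finset.range (K + 1), (t ^ k * IL φ (apP (U.getD k [])) t -
      ((k : ℝ) + 1) * t ^ k * IL φ (U.getD (k + 1) []) t) := by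
    unfold Dis
    refine Finset.sum_congr rfl fun k _ => ?_
    unfold part
    rw [IL_append, IL_append, IL_sc, IL_sc, IL_apD φ ht.le]
    push_cast
    ring
  have e2 : ∑ k ∈ Finset.range (K + 1), ((k : ℝ) + 1) * t ^ k * IL φ (U.getD (k + 1) []) t =
      ∑ k ∈ Finset.range (K + 1), (k : ℝ) * t ^ (k - 1) * IL φ (U.getD k []) t := by
    have e3 := Finset.sum_range_succ' (fun k : ℕ => (k : ℝ) * t ^ (k - 1) * IL φ (U.getD k []) t)
      (K + 1)
    have e4 := Finset.sum_range_succ (fun k : ℕ => (k : ℝ) * t ^ (k - 1) * IL φ (U.getD k []) t)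
      (K + 1)
    rw [e3, U_last K U h, IL_nil] at e4
    simp only [Nat.cast_zero, zero_mul, add_zero, mul_zero, Nat.add_sub_cancel] at e4
    rw [← e4]
    refine Finset.sum_congr rfl fun k _ => ?_
    push_cast
    ring
  rw [e1, Finset.sum_sub_distrib, e2, ← Finset.sum_sub_distrib, ← Finset.sum_neg_distrib]
  refine Finset.sum_congr rfl fun k _ => ?_
  ring

lemma Phi_zero_nonneg (hN : 1 ≤ N) (h : ordOK N U M K = true)
    (hR : ∀ X : ℕ × ℕ → ℂ, 0 ≤ ev (body U M K) X) (φ : 𝓢(ℂ, ℂ)) : 0 ≤ IL φ (U.getD 0 []) 0 := by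
  obtain ⟨h1, h2, _⟩ := ordOK_spec N K U M h
  have hcont : ContinuousOn (Phi K U φ) (Ici 0) := by
    unfold Phi
    exact continuousOn_finsetSum _ fun k _ => (continuousOn_pow k).mul (continuousOn_IL φ _)
  have hanti : AntitoneOn (Phi K U φ) (Ici 0) := by
    refine antitoneOn_of_deriv_nonpos (convex_Ici 0) hcont ?_ ?_
    · intro t ht
      rw [interior_Ici] at ht
      exact (hasDerivAt_Phi K U M h1 φ ht).differentiableAt.differentiableWithinAt
    · intro t ht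
      rw [interior_Ici] at ht
      rw [(hasDerivAt_Phi K U M h1 φ ht).deriv]
      have := Dis_nonneg N K U M h hR φ ht
      linarith
  have hlim : Tendsto (Phi K U φ) atTop (𝓝 0) := by
    have h3 : Tendsto (fun t => ∑ k ∈ Finset.range (K + 1), t ^ k * IL φ (U.getD k []) t) atTop
        (𝓝 (∑ _k ∈ Finset.range (K + 1), (0 : ℝ))) :=
      tendsto_finsetSum _ fun k hk => tendsto_IL φ N k hN _
        (h2 k (Nat.lt_succ_iff.1 (Finset.mem_range.1 hk)))
    rw [Finset.sum_const_zero] at h3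
    exact h3
  have h0 : Phi K U φ 0 = IL φ (U.getD 0 []) 0 := by
    unfold Phi
    rw [Finset.sum_range_succ']
    simp
  rw [← h0]
  refine le_of_tendsto hlim ?_
  filter_upwards [eventually_ge_atTop 0] with t ht
  exact hanti (mem_Ici.2 le_rfl) (mem_Ici.2 ht) ht

end

lemma integrable_quart (ψ : 𝓢(ℂ, ℂ)) : Integrable fun z => ‖ψ z‖ ^ 4 := by
  obtain ⟨C, hC⟩ := ψ.decay 0 0
  have hb : ∀ z, ‖ψ z‖ ≤ C := fun z => by simpa using hC.2 z
  have h1 : Integrable fun z => ψ z := ψ.integrable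
  refine (h1.norm.mul_const (C ^ 3)).mono' ?_ (ae_of_all _ fun z => ?_)
  · exact (ψ.continuous.norm.pow 4).aestronglyMeasurable
  · rw [Real.norm_eq_abs, abs_of_nonneg (by positivity)]
    have := pow_le_pow_left₀ (norm_nonneg (ψ z)) (hb z) 3
    nlinarith [mul_le_mul_of_nonneg_left this (norm_nonneg (ψ z))]

/-- FRAME THEOREM -/
theorem frame (n m K : ℕ) (hn : 1 ≤ n) (U M : List Fm) (Mi : Fm) (A B : ℝ)
    (ho : ordOK (n + 2 * m) U M K = true)
    (hR : ∀ X : ℕ × ℕ → ℂ, 0 ≤ ev (body U M K) X)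
    (hM : ∀ X : ℕ × ℕ → ℂ, ev (U.getD 0 [] ++ apD Mi) X + B * ‖X (n + m, m)‖ ^ 4 ≤
      A * ‖X (m, n + m)‖ ^ 4) (φ : 𝓢(ℂ, ℂ)) :
    B * ∫ z, ‖XJ φ 0 (n + m, m) z‖ ^ 4 ≤ A * ∫ z, ‖XJ φ 0 (m, n + m) z‖ ^ 4 := by
  have h0 := Phi_zero_nonneg (n + 2 * m) K U M (by omega) ho hR φ
  have h1 := int_ev φ le_rfl (U.getD 0 [] ++ apD Mi)
  rw [IL_append, IL_apD φ le_rfl, add_zero] at h1
  have h2 : ∫ z, (ev (U.getD 0 [] ++ apD Mi) (Xt φ 0 z) + B * ‖XJ φ 0 (n + m, m) z‖ ^ 4) ≤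
      ∫ z, A * ‖XJ φ 0 (m, n + m) z‖ ^ 4 :=
    integral_mono (h1.1.add ((integrable_quart _).const_mul B)) ((integrable_quart _).const_mul A)
      fun z => hM (Xt φ 0 z)
  rw [integral_add h1.1 ((integrable_quart _).const_mul B), h1.2, integral_const_mul,
    integral_const_mul] at h2
  linarith

end Pool.Agent.Helper54.JET
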