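import Pool.Agent.Helper54.JET.Base
import Pool.Agent.Helper54.JET.Form

set_option autoImplicit false

/-! The heat symbol is of temperate growth; jets of the heat flow of a Schwartz function. -/

noncomputable section

namespace Pool.Agent.Helper54.JET

open MeasureTheory Set Filter Topology Complex FourierTransform SchwartzMap
open Pool.Agent.Helper68.BA
open scoped ContDiff SchwartzMap LineDeriv ENNReal


/-- heat symbol -/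
def hr (t : ℝ) (ξ : ℂ) : ℝ := Real.exp (-(Real.pi ^ 2 * t) * ‖ξ‖ ^ 2)

lemma tg_exp_neg {c : ℝ} (hc : c ≤ 0) :
    (fun ξ : ℂ => Real.exp (c * ‖ξ‖ ^ 2)).HasTemperateGrowth := by
  have h1 : (fun ξ : ℂ => c * ‖ξ‖ ^ 2).HasTemperateGrowth :=
    (Function.HasTemperateGrowth.const c).mul (Function.hasTemperateGrowth_norm_sq ℂ)
  have h2 : (fun ξ : ℂ => Real.exp (c * ‖ξ‖ ^ 2)) = Real.exp ∘ (fun ξ : ℂ => c * ‖ξ‖ ^ 2) := rfl
  rw [h2]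
  refine Function.HasTemperateGrowth.comp' (t := Iic 0) ?_ (uniqueDiffOn_Iic 0)
    Real.contDiff_exp.contDiffOn ?_ h1
  · rintro _ ⟨ξ, rfl⟩
    exact mul_nonpos_of_nonpos_of_nonneg hc (by positivity)
  · intro N
    refine ⟨0, 1, zero_le_one, fun n _ x hx => ?_⟩
    rw [norm_iteratedFDerivWithin_eq_norm_iteratedDerivWithin,
      iteratedDerivWithin_eq_iteratedDeriv (uniqueDiffOn_Iic 0) (Real.contDiff_exp.contDiffAt) hx,
      iteratedDeriv_eq_iterate, Real.iter_deriv_exp, pow_zero, mul_one, Real.norm_eq_abs,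
      abs_of_pos (Real.exp_pos x)]
    exact Real.exp_le_one_iff.2 hx

lemma tg_hr {t : ℝ} (ht : 0 ≤ t) : (fun ξ => ((hr t ξ : ℝ) : ℂ)).HasTemperateGrowth := by
  have h : (hr t).HasTemperateGrowth := by
    unfold hr
    exact tg_exp_neg (by
      have : 0 ≤ Real.pi ^ 2 * t := by positivity
      linarith)
  exact Function.HasTemperateGrowth.comp (Complex.ofRealCLM.hasTemperateGrowth) h

/-- polynomial symbol of `d^i dbar^j` -/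
def sy (p : ℕ × ℕ) (ξ : ℂ) : ℂ := sz ξ ^ p.1 * szb ξ ^ p.2

lemma tg_sy (p : ℕ × ℕ) : (sy p).HasTemperateGrowth :=
  (tg_sz.pow p.1).mul (tg_szb.pow p.2)

/-- the jet `d^i dbar^j` of the heat flow of `φ` at time `t` -/
def XJ (φ : 𝓢(ℂ, ℂ)) (t : ℝ) (p : ℕ × ℕ) : 𝓢(ℂ, ℂ) :=
  MM (fun ξ => sy p ξ * ((hr t ξ : ℝ) : ℂ)) φ

lemma fourier_MM {g : ℂ → ℂ} (hg : g.HasTemperateGrowth) (f : 𝓢(ℂ, ℂ)) :
    𝓕 (MM g f : ℂ → ℂ) = fun ξ => g ξ * 𝓕 (f : ℂ → ℂ) ξ := by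
  rw [← fourier_coe, MM, fourierMultiplierCLM_apply, FourierTransform.fourier_fourierInv_eq]
  funext ξ
  rw [smulLeftCLM_apply_apply hg, smul_eq_mul, fourier_coe]

lemma fourier_XJ (φ : 𝓢(ℂ, ℂ)) {t : ℝ} (ht : 0 ≤ t) (p : ℕ × ℕ) (ξ : ℂ) :
    𝓕 (XJ φ t p : ℂ → ℂ) ξ = sy p ξ * ((hr t ξ : ℝ) : ℂ) * 𝓕 (φ : ℂ → ℂ) ξ := by
  have h := fourier_MM (g := fun ξ => sy p ξ * ((hr t ξ : ℝ) : ℂ)) ((tg_sy p).mul (tg_hr ht)) φ
  exact congrFun h ξ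

lemma MM_one (φ : 𝓢(ℂ, ℂ)) : MM (fun _ => 1) φ = φ := by
  rw [MM, fourierMultiplierCLM_const]
  simp

lemma XJ_zero (φ : 𝓢(ℂ, ℂ)) (p : ℕ × ℕ) : XJ φ 0 p = dzS^[p.1] (dzbarS^[p.2] φ) := by
  have h1 : (fun ξ => sy p ξ * ((hr 0 ξ : ℝ) : ℂ)) = sz ^ p.1 * (szb ^ p.2 * fun _ => 1) := by
    funext ξ
    simp [sy, hr]
  have h2 : dzbarS^[p.2] φ = MM (szb ^ p.2 * fun _ => 1) φ := by
    conv_lhs => rw [← MM_one φ]
    exact dzbarS_iter (Function.HasTemperateGrowth.const 1) φ p.2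
  rw [XJ, h1, h2, ← dzS_iter ((tg_szb.pow p.2).mul (Function.HasTemperateGrowth.const 1))]

/-! ### quartic symbols -/

/-- frequencies: three free ones, the fourth is determined -/
abbrev C3 : Type := ℂ × ℂ × ℂ

/-- the fourth frequency -/
def x4 (ξ : C3) : ℂ := ξ.1 + ξ.2.1 - ξ.2.2

/-- the symbol of a quartic monomial -/
def sg (q : Q4) (ξ : C3) : ℂ :=
  sy q.1 ξ.1 * sy q.2.1 ξ.2.1 * starRingEnd ℂ (sy q.2.2.1 ξ.2.2) * starRingEnd ℂ (sy q.2.2.2 (x4 ξ))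

/-- the product of the four Fourier transforms -/
def Om (φ : 𝓢(ℂ, ℂ)) (ξ : C3) : ℂ :=
  𝓕 (φ : ℂ → ℂ) ξ.1 * 𝓕 (φ : ℂ → ℂ) ξ.2.1 * starRingEnd ℂ (𝓕 (φ : ℂ → ℂ) ξ.2.2) * starRingEnd ℂ (𝓕 (φ : ℂ → ℂ) (x4 ξ))

/-- the decay rate -/
def En (ξ : C3) : ℝ := Real.pi ^ 2 * (‖ξ.1‖ ^ 2 + ‖ξ.2.1‖ ^ 2 + ‖ξ.2.2‖ ^ 2 + ‖x4 ξ‖ ^ 2)

lemma En_nonneg (ξ : C3) : 0 ≤ En ξ := by
  unfold En
  positivity

/-- the quartic integral at time `t`, Fourier side -/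
def JJ (φ : 𝓢(ℂ, ℂ)) (q : Q4) (t : ℝ) : ℂ :=
  ∫ ξ : C3, sg q ξ * Om φ ξ * ((Real.exp (-(t * En ξ)) : ℝ) : ℂ)

lemma hr_prod (t : ℝ) (ξ : C3) : hr t ξ.1 * hr t ξ.2.1 * hr t ξ.2.2 * hr t (x4 ξ) =
    Real.exp (-(t * En ξ)) := by
  unfold hr En
  rw [← Real.exp_add, ← Real.exp_add, ← Real.exp_add]
  congr 1
  ring

/-- physical side = Fourier side -/
lemma phys (φ : 𝓢(ℂ, ℂ)) {t : ℝ} (ht : 0 ≤ t) (q : Q4) :
    ∫ z, XJ φ t q.1 z * XJ φ t q.2.1 z * starRingEnd ℂ (XJ φ t q.2.2.1 z) * starRingEnd ℂ (XJ φ t q.2.2.2 z) =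
      JJ φ q t := by
  rw [quartic, JJ]
  congr 1
  funext ξ
  rw [fourier_XJ φ ht, fourier_XJ φ ht, fourier_XJ φ ht, fourier_XJ φ ht, ← hr_prod]
  simp only [sg, Om, x4, map_mul, Complex.conj_ofReal]
  push_cast
  ring

lemma integrable_cont_mul {a₁ a₂ a₃ a₄ : ℂ → ℂ} (i₁ : Integrable a₁) (i₂ : Integrable a₂)
    (i₃ : Integrable a₃) (c₁ : Continuous a₁) (c₂ : Continuous a₂) (c₃ : Continuous a₃)
    (c₄ : Continuous a₄) (b : ∃ C : ℝ, ∀ ξ, ‖a₄ ξ‖ ≤ C) :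
    Integrable fun ξ : C3 => a₁ ξ.1 * a₂ ξ.2.1 * starRingEnd ℂ (a₃ ξ.2.2) * starRingEnd ℂ (a₄ (x4 ξ)) := by
  obtain ⟨C, hC⟩ := b
  have h1 : Integrable (fun ξ : C3 => a₁ ξ.1 * (a₂ ξ.2.1 * a₃ ξ.2.2)) :=
    i₁.mul_prod (i₂.mul_prod i₃)
  refine (h1.norm.mul_const C).mono' ?_ (ae_of_all _ fun ξ => ?_)
  · apply Continuous.aestronglyMeasurable
    have k4 : Continuous fun ξ : C3 => a₄ (x4 ξ) := c₄.comp (by unfold x4; fun_prop)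
    have k1 : Continuous fun ξ : C3 => a₁ ξ.1 := c₁.comp (by fun_prop)
    have k2 : Continuous fun ξ : C3 => a₂ ξ.2.1 := c₂.comp (by fun_prop)
    have k3 : Continuous fun ξ : C3 => a₃ ξ.2.2 := c₃.comp (by fun_prop)
    exact ((k1.mul k2).mul (Complex.continuous_conj.comp k3)).mul (Complex.continuous_conj.comp k4)
  · simp only [norm_mul, RCLike.norm_conj]
    have := hC (x4 ξ)
    have h2 : 0 ≤ ‖a₁ ξ.1‖ * (‖a₂ ξ.2.1‖ * ‖a₃ ξ.2.2‖) := by positivity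
    nlinarith [mul_le_mul_of_nonneg_left this h2]

lemma integrable_sg (φ : 𝓢(ℂ, ℂ)) (q : Q4) : Integrable fun ξ : C3 => sg q ξ * Om φ ξ := by
  have key := integrable_cont_mul (fourier_integrable (XJ φ 0 q.1))
    (fourier_integrable (XJ φ 0 q.2.1)) (fourier_integrable (XJ φ 0 q.2.2.1))
    (cont_fourier (XJ φ 0 q.1)) (cont_fourier (XJ φ 0 q.2.1)) (cont_fourier (XJ φ 0 q.2.2.1))
    (cont_fourier (XJ φ 0 q.2.2.2)) (fourier_bdd (XJ φ 0 q.2.2.2))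
  refine key.congr (ae_of_all _ fun ξ => ?_)
  simp only [fourier_XJ φ le_rfl, sg, Om, map_mul, Complex.conj_ofReal, hr]
  simp only [mul_zero, neg_zero, zero_mul, Real.exp_zero, Complex.ofReal_one, mul_one]
  ring

lemma continuous_En : Continuous En := by
  unfold En x4
  fun_prop

/-! ### operations on monomials -/

lemma sg_D1 (q : Q4) (ξ : C3) : sg (D1 q) ξ = sz ξ.1 * sg q ξ := by
  simp only [sg, D1, ax, sy]; ring
lemma sg_D2 (q : Q4) (ξ : C3) : sg (D2 q) ξ = sz ξ.2.1 * sg q ξ := by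
  simp only [sg, D2, ax, sy]; ring
lemma sg_D3 (q : Q4) (ξ : C3) : sg (D3 q) ξ = starRingEnd ℂ (szb ξ.2.2) * sg q ξ := by
  simp only [sg, D3, ay, sy, map_mul, map_pow]; ring
lemma sg_D4 (q : Q4) (ξ : C3) : sg (D4 q) ξ = starRingEnd ℂ (szb (x4 ξ)) * sg q ξ := by
  simp only [sg, D4, ay, sy, map_mul, map_pow]; ring
lemma sg_B1 (q : Q4) (ξ : C3) : sg (B1 q) ξ = szb ξ.1 * sg q ξ := by
  simp only [sg, B1, ay, sy]; ring
lemma sg_B2 (q : Q4) (ξ : C3) : sg (B2 q) ξ = szb ξ.2.1 * sg q ξ := by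
  simp only [sg, B2, ay, sy]; ring
lemma sg_B3 (q : Q4) (ξ : C3) : sg (B3 q) ξ = starRingEnd ℂ (sz ξ.2.2) * sg q ξ := by
  simp only [sg, B3, ax, sy, map_mul, map_pow]; ring
lemma sg_B4 (q : Q4) (ξ : C3) : sg (B4 q) ξ = starRingEnd ℂ (sz (x4 ξ)) * sg q ξ := by
  simp only [sg, B4, ax, sy, map_mul, map_pow]; ring

/-- the divergence of a monomial has symbol `0` -/
lemma sum_dd (q : Q4) (ξ : C3) : ((dd q).map fun r => sg r ξ).sum = 0 := by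
  simp only [dd, List.map_cons, List.map_nil, List.sum_cons, List.sum_nil, sg_D1, sg_D2, sg_D3,
    sg_D4]
  have : sz ξ.1 + sz ξ.2.1 + starRingEnd ℂ (szb ξ.2.2) + starRingEnd ℂ (szb (x4 ξ)) = 0 := by
    simp only [sz, szb, x4, map_mul, Complex.conj_ofReal, Complex.conj_I, map_add, map_sub]
    ring
  linear_combination (sg q ξ) * this

/-- the symbol of `P` is the decay rate -/
lemma sum_pp (q : Q4) (ξ : C3) : ((pp q).map fun r => sg r ξ).sum = ((En ξ : ℝ) : ℂ) * sg q ξ := by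
  simp only [pp, List.map_cons, List.map_nil, List.sum_cons, List.sum_nil, sg_D1, sg_D2, sg_D3,
    sg_D4, sg_B1, sg_B2, sg_B3, sg_B4]
  have h1 : sz ξ.1 + sz ξ.2.1 + starRingEnd ℂ (szb ξ.2.2) + starRingEnd ℂ (szb (x4 ξ)) = 0 := by
    simp only [sz, szb, x4, map_mul, Complex.conj_ofReal, Complex.conj_I, map_add, map_sub]
    ring
  have nm : ∀ w : ℂ, ((‖w‖ ^ 2 : ℝ) : ℂ) = w * starRingEnd ℂ w := by
    intro w
    rw [Complex.mul_conj, Complex.normSq_eq_norm_sq]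
  have h2 : sz ξ.1 * szb ξ.1 + sz ξ.2.1 * szb ξ.2.1 + starRingEnd ℂ (szb ξ.2.2) * starRingEnd ℂ (sz ξ.2.2) +
      starRingEnd ℂ (szb (x4 ξ)) * starRingEnd ℂ (sz (x4 ξ)) = -((En ξ : ℝ) : ℂ) := by
    have e : ((En ξ : ℝ) : ℂ) = (Real.pi : ℂ) ^ 2 * (ξ.1 * starRingEnd ℂ ξ.1 + ξ.2.1 * starRingEnd ℂ ξ.2.1 +
        ξ.2.2 * starRingEnd ℂ ξ.2.2 + x4 ξ * starRingEnd ℂ (x4 ξ)) := by
      rw [← nm, ← nm, ← nm, ← nm, En]
      push_cast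
      ring
    rw [e]
    simp only [sz, szb, map_mul, Complex.conj_ofReal, Complex.conj_I, Complex.conj_conj]
    have hI : I * I = -1 := Complex.I_mul_I
    linear_combination ((Real.pi : ℂ) ^ 2 * (ξ.1 * starRingEnd ℂ ξ.1 + ξ.2.1 * starRingEnd ℂ ξ.2.1 +
        ξ.2.2 * starRingEnd ℂ ξ.2.2 + x4 ξ * starRingEnd ℂ (x4 ξ))) * hI
  linear_combination ((szb ξ.1 + szb ξ.2.1 + starRingEnd ℂ (sz ξ.2.2) + starRingEnd ℂ (sz (x4 ξ))) * sg q ξ) * h1 -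
    sg q ξ * h2

end Pool.Agent.Helper54.JET
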